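import Pool.Agent.W610.HY.Fin
import Pool.Agent.W22.HY.NZ2

/-!
# MP_5ac32f_an: hyperinvariant subspaces from log-integrable local resolvents on two circles

Let `T` be a bounded operator on a complex Banach space `X`, `x ∈ X` and `y ∈ X*`.  Suppose that on two
circles `C₁`, `C₂`, whose closed discs `D₁`, `D₂` are disjoint, there are measurable functions
`f : C₁ → X` and `g : C₂ → X*` with `(z - T) f(z) = x` for almost all `z ∈ C₁`, `(z - T*) g(z) = y` for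
almost all `z ∈ C₂` (arc length) and `log⁺ ‖f‖`, `log⁺ ‖g‖` integrable.  If the open disc bounded by
`C₁` contains a point of the local spectrum of `T` at `x` and the one bounded by `C₂` a point of the local
spectrum of `T*` at `y`, then `T` has a nontrivial closed hyperinvariant subspace.

Nothing is assumed about the spectrum of `T` (the circles may run inside the spectrum), and the functions
`f` and `g` need not be analytic or continuous.

Consequences, also proved below: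
* `areaVersion`: the same with `f`, `g` given almost everywhere (area) near two different points of
  the local spectra and `log⁺ ‖f‖`, `log⁺ ‖g‖` integrable for the area measure;
* `resolventVersion`: if the spectrum of `T` meets an open set `U` in a null set with at least two
  points and `log⁺ ‖(z - T)⁻¹‖` is integrable on `U`, then `T` has a hyperinvariant subspace;
* `expGrowth`, `polyGrowth`: growth `exp (C dist(z, E)^(-k))` of the resolvent near a closed set `E` whose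
  `δ`-neighbourhoods have area `O(δ^(k + ε))`; polynomial growth near a set of upper Minkowski
  dimension less than 2.

Proof.  Let `h` be an outer function of the disc `D₁` with `|h| ≤ exp (-log⁺ ‖f‖)` almost everywhere on
`C₁` (constructed from polynomials `p_k` with `∑ Re p_k` large and `∑ Re p_k(0)` finite), and
`A = ∮ h f dz ∈ X`; similarly `B = ∮ k g dz ∈ X*`.  If `A = 0`, then `F(λ) = H(λ)⁻¹ ∮ h f / (z - λ) dz`,
`H(λ) = ∮ h / (z - λ) dz ≠ 0`, solves `(λ - T) F(λ) = x` in the disc, against the assumption; so `A ≠ 0`, and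
likewise `B ≠ 0`.  For every `S` commuting with `T`,
`g(w)(S f(z)) = (y (S f(z)) - g(w)(S x)) / (w - z)`, and the two terms integrate to `0` against
`h(z) k(w)`, because `∮ k(w)/(w - z) dw = 0` for `z` outside `D₂` and `∮ h(z)/(w - z) dz = 0` for `w` outside
`D₁`.  So `B(S A) = 0` for all `S` in the commutant, and the closure of `{S A}` is hyperinvariant.
-/

set_option autoImplicit false

namespace Pool.Agent.Results.MP_5ac32f_an.LocalResolventCircles

open MeasureTheory Set Metric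
open Pool.Agent.W610.HY

/-- **Hyperinvariant subspaces from log-integrable local resolvents on two circles.** -/
theorem result (X : Type) [NormedAddCommGroup X] [NormedSpace ℂ X] [CompleteSpace X]
    (T : X →L[ℂ] X) (x : X) (y : X →L[ℂ] ℂ)
    -- two circles, the closed discs are disjoint
    (c₁ c₂ : ℂ) (r₁ r₂ : ℝ) (hd : r₁ + r₂ < ‖c₁ - c₂‖)
    -- a log-integrable measurable local resolvent of `x` on the first circle
    (f : ℂ → X)
    (hfm : AEStronglyMeasurable (fun θ => f (circleMap c₁ r₁ θ))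
      (volume.restrict (Ioc (0:ℝ) (2 * Real.pi))))
    (hfe : ∀ᵐ θ ∂(volume.restrict (Ioc (0:ℝ) (2 * Real.pi))),
      circleMap c₁ r₁ θ • f (circleMap c₁ r₁ θ) - T (f (circleMap c₁ r₁ θ)) = x)
    (hfi : IntegrableOn (fun θ => Real.posLog ‖f (circleMap c₁ r₁ θ)‖) (Ioc (0:ℝ) (2 * Real.pi)))
    -- a log-integrable measurable local resolvent of `y` (for the adjoint) on the second circle
    (g : ℂ → (X →L[ℂ] ℂ))
    (hgm : AEStronglyMeasurable (fun θ => g (circleMap c₂ r₂ θ))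
      (volume.restrict (Ioc (0:ℝ) (2 * Real.pi))))
    (hge : ∀ᵐ θ ∂(volume.restrict (Ioc (0:ℝ) (2 * Real.pi))),
      circleMap c₂ r₂ θ • g (circleMap c₂ r₂ θ) - (g (circleMap c₂ r₂ θ)).comp T = y)
    (hgi : IntegrableOn (fun θ => Real.posLog ‖g (circleMap c₂ r₂ θ)‖) (Ioc (0:ℝ) (2 * Real.pi)))
    -- a point inside the first circle in the local spectrum of `x`
    (a₁ : ℂ) (ha₁ : ‖a₁ - c₁‖ < r₁)
    (h₁ : ¬ ∃ (δ : ℝ) (F : ℂ → X), 0 < δ ∧ DifferentiableOn ℂ F (ball a₁ δ) ∧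
      ∀ z ∈ ball a₁ δ, z • F z - T (F z) = x)
    -- a point inside the second circle in the local spectrum of `y`
    (a₂ : ℂ) (ha₂ : ‖a₂ - c₂‖ < r₂)
    (h₂ : ¬ ∃ (δ : ℝ) (G : ℂ → (X →L[ℂ] ℂ)), 0 < δ ∧ DifferentiableOn ℂ G (ball a₂ δ) ∧
      ∀ z ∈ ball a₂ δ, z • G z - (G z).comp T = y) :
    ∃ V : Submodule ℂ X, IsClosed (V : Set X) ∧ V ≠ ⊥ ∧ V ≠ ⊤ ∧
      ∀ Q : X →L[ℂ] X, Q * T = T * Q → ∀ v ∈ V, Q v ∈ V :=
  Two.main Fin.hGOOD2 Pool.Agent.W22.HY.NZ2.main Pool.Agent.W389.HY.ABM.main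
    X T x y c₁ c₂ r₁ r₂ f g a₁ a₂ hd ha₁ ha₂ hfm hgm hfe hge hfi hgi h₁ h₂

/-- The area version: local resolvents given almost everywhere near two different points. -/
theorem areaVersion (X : Type) [NormedAddCommGroup X] [NormedSpace ℂ X] [CompleteSpace X]
    (T : X →L[ℂ] X) (x : X) (y : X →L[ℂ] ℂ) (c₁ c₂ : ℂ) (U₁ U₂ : Set ℂ)
    (f : ℂ → X) (g : ℂ → (X →L[ℂ] ℂ)) (hne : c₁ ≠ c₂)
    (hU₁ : IsOpen U₁) (hU₂ : IsOpen U₂) (hc₁ : c₁ ∈ U₁) (hc₂ : c₂ ∈ U₂)
    (hfm : AEStronglyMeasurable f (volume.restrict U₁))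
    (hgm : AEStronglyMeasurable g (volume.restrict U₂))
    (hfe : ∀ᵐ z ∂(volume.restrict U₁), z • f z - T (f z) = x)
    (hge : ∀ᵐ z ∂(volume.restrict U₂), z • g z - (g z).comp T = y)
    (hfi : IntegrableOn (fun z : ℂ => Real.posLog ‖f z‖) U₁)
    (hgi : IntegrableOn (fun z : ℂ => Real.posLog ‖g z‖) U₂)
    (h₁ : ¬ ∃ (δ : ℝ) (F : ℂ → X), 0 < δ ∧ DifferentiableOn ℂ F (ball c₁ δ) ∧
      ∀ z ∈ ball c₁ δ, z • F z - T (F z) = x)
    (h₂ : ¬ ∃ (δ : ℝ) (G : ℂ → (X →L[ℂ] ℂ)), 0 < δ ∧ DifferentiableOn ℂ G (ball c₂ δ) ∧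
      ∀ z ∈ ball c₂ δ, z • G z - (G z).comp T = y) :
    ∃ V : Submodule ℂ X, IsClosed (V : Set X) ∧ V ≠ ⊥ ∧ V ≠ ⊤ ∧
      ∀ Q : X →L[ℂ] X, Q * T = T * Q → ∀ v ∈ V, Q v ∈ V :=
  Two.area Pool.Agent.W15.HY.CIRC.main
    (Two.main Fin.hGOOD2 Pool.Agent.W22.HY.NZ2.main Pool.Agent.W389.HY.ABM.main)
    X T x y c₁ c₂ U₁ U₂ f g hne hU₁ hU₂ hc₁ hc₂ hfm hgm hfe hge hfi hgi h₁ h₂

theorem loc : LOC :=
  Masm.loc (Two.area Pool.Agent.W15.HY.CIRC.main
    (Two.main Fin.hGOOD2 Pool.Agent.W22.HY.NZ2.main Pool.Agent.W389.HY.ABM.main)) Fin.hMEAS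

/-- The version for the resolvent. -/
theorem resolventVersion (X : Type) [NormedAddCommGroup X] [NormedSpace ℂ X] [CompleteSpace X]
    (T : X →L[ℂ] X) (U : Set ℂ) (hU : IsOpen U)
    (h2 : (spectrum ℂ T ∩ U).Nontrivial) (h0 : volume (spectrum ℂ T ∩ U) = 0)
    (hI : IntegrableOn (fun z : ℂ => Real.posLog ‖resolvent T z‖) U) :
    ∃ V : Submodule ℂ X, IsClosed (V : Set X) ∧ V ≠ ⊥ ∧ V ≠ ⊤ ∧
      ∀ Q : X →L[ℂ] X, Q * T = T * Q → ∀ v ∈ V, Q v ∈ V :=
  Cor.glob loc Pool.Agent.W19.HY.RES.main Fin.hMEAS T U hU h2 h0 hI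

/-- Growth of finite exponential order near a set with small neighbourhoods. -/
theorem expGrowth (X : Type) [NormedAddCommGroup X] [NormedSpace ℂ X] [CompleteSpace X]
    (T : X →L[ℂ] X) (U E : Set ℂ) (C k ε : ℝ) (hU : IsOpen U) (hb : Bornology.IsBounded U)
    (hE : IsClosed E) (hk : 0 ≤ k) (hε : 0 < ε) (hs : spectrum ℂ T ∩ U ⊆ E)
    (h2 : (spectrum ℂ T ∩ U).Nontrivial)
    (hR : ∀ z ∈ U, z ∉ E → ‖resolvent T z‖ ≤ Real.exp (C * infDist z E ^ (-k)))
    (hV : ∀ δ : ℝ, 0 < δ → δ ≤ 1 →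
      volume {z : ℂ | z ∈ U ∧ infDist z E ≤ δ} ≤ ENNReal.ofReal (C * δ ^ (k + ε))) :
    ∃ V : Submodule ℂ X, IsClosed (V : Set X) ∧ V ≠ ⊥ ∧ V ≠ ⊤ ∧
      ∀ Q : X →L[ℂ] X, Q * T = T * Q → ∀ v ∈ V, Q v ∈ V :=
  Cor.mink loc Pool.Agent.W19.HY.RES.main Fin.hMEAS (Pool.Agent.W427.HY.MINK.main Fin.hMEAS)
    T U E C k ε hU hb hE hk hε hs h2 hR hV

/-- Polynomial growth near a set of upper Minkowski dimension less than two. -/
theorem polyGrowth (X : Type) [NormedAddCommGroup X] [NormedSpace ℂ X] [CompleteSpace X]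
    (T : X →L[ℂ] X) (U E : Set ℂ) (C s ε : ℝ) (hU : IsOpen U) (hb : Bornology.IsBounded U)
    (hE : IsClosed E) (hε : 0 < ε) (hs : spectrum ℂ T ∩ U ⊆ E)
    (h2 : (spectrum ℂ T ∩ U).Nontrivial)
    (hR : ∀ z ∈ U, z ∉ E → ‖resolvent T z‖ ≤ C * infDist z E ^ (-s))
    (hV : ∀ δ : ℝ, 0 < δ → δ ≤ 1 →
      volume {z : ℂ | z ∈ U ∧ infDist z E ≤ δ} ≤ ENNReal.ofReal (C * δ ^ ε)) :
    ∃ V : Submodule ℂ X, IsClosed (V : Set X) ∧ V ≠ ⊥ ∧ V ≠ ⊤ ∧
      ∀ Q : X →L[ℂ] X, Q * T = T * Q → ∀ v ∈ V, Q v ∈ V :=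
  Cor2.poly loc Pool.Agent.W19.HY.RES.main Fin.hMEAS (Pool.Agent.W427.HY.MINK.main Fin.hMEAS)
    T U E C s ε hU hb hE hε hs h2 hR hV

end Pool.Agent.Results.MP_5ac32f_an.LocalResolventCircles
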